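import Pool.Graph.R_pool_sql_team_seeded_63374d34.N683.H2.Res
import Pool.Graph.R_pool_sql_team_seeded_63374d34.N19.BR.Par
import Pool.Agent.H453.CM.Fld

/-!
# The conjecture of Birch and Swinnerton-Dyer on the rank: reduction to the curves that look CM

An elliptic curve `E` over a number field `F` has complex multiplication (over an extension of `F`) by an
order `ℤ + ℤ φ` exactly if its geometric endomorphism ring contains a `φ` which is no multiplication by an
integer; then `σ φ σ⁻¹ ∈ ℤ + ℤ φ` for all `σ` in the Galois group `G_F`, and `φ` does not act as an integer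
on `E[ℓ]` if `φ` generates the endomorphism ring.  In this file `E` **looks CM modulo `m`** if there is an
endomorphism `φ` of the group `E[m]` with these two properties: `φ` does not act as an integer on `E[ℓ]`,
for every prime `ℓ ∣ m`, and for every `σ ∈ G_F` there are integers `a`, `b` with
`σ φ σ⁻¹ = a + b φ` on `E[m]`.  If `E` has no complex multiplication, then `E` looks CM only modulo
finitely many primes, and only modulo finitely many powers of a given prime (Serre); modulo a prime `ℓ` it
means that the image of `G_F` in `Aut(E[ℓ])` is contained in a Borel subgroup or in the normaliser of a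
Cartan subgroup.

The theorem reduces the conjecture on the rank, in the form that `L(E/K, s)` has a meromorphic continuation
to the connected set `U` whose order at `s = 1` is the rank of `E(K)`, to elliptic curves which look CM
modulo any given squarefree number `N` and have arbitrarily large rank: for `j(E) ≠ 0, 1728` the rank of
`E(K)` and `L(E/K, s)` are integral combinations of the ranks of `E(F_i)` and of the functions
`L(E/F_i, s)`, for finite extensions `F_i` of `K` over which `E` looks CM modulo `N`.

The proof.  Brauer induction, with the fields of `Pool.Agent.N683.H2` (where it is shown that the rank can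
be made large), gives fields `F_i` over which the Galois group of `K(E[N²])` is `p_i`-hyperelementary,
`C ⋊ P` with a cyclic group `C` and a `p_i`-group `P`.  Let `ℓ ^ k ∣ N`.  In a basis of `E[ℓ ^ (2k)]`
a generator `c` of `C` is `s + ℓ ^ a x` with an integer `s` and an `x` that is not scalar modulo `ℓ`.
If `a < k`, then `σ c σ⁻¹ = c ^ j` and the theorem of Cayley and Hamilton show that `φ = x` has the
required property on `E[ℓ ^ k]`, since `2 k - a ≥ k`.  If `a ≥ k`, then the image of the Galois group in
`Aut(E[ℓ ^ k])` modulo the scalars is a `p_i`-group; if it is not trivial, then it has a nontrivial central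
element, and a preimage `φ` of it satisfies `σ φ σ⁻¹ = b φ`.  It is not scalar modulo `ℓ` if `ℓ ≠ p_i` or
`k = 1`.  The same relation between permutation characters holds for the ranks.
-/

set_option autoImplicit false

namespace Pool.Agent.H453.Old.RankLooksCM

open NumberField IsDedekindDomain
open Pool.Agent.R433.MD (Ext)
open Pool.Agent.N19.BR.Def
open scoped Classical

/-- The group of the geometric points of the elliptic curve `E` over the field `F`. -/
abbrev GeometricPoints {F : Type} [Field F] (E : WeierstrassCurve F) : Type :=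
  (E.baseChange (AlgebraicClosure F)).toAffine.Point

/-- The action of `σ ∈ Gal(F̄/F)` on the geometric points. -/
noncomputable def galoisAction {F : Type} [Field F] (E : WeierstrassCurve F)
    (σ : AlgebraicClosure F ≃ₐ[F] AlgebraicClosure F) : GeometricPoints E →+ GeometricPoints E :=
  WeierstrassCurve.Affine.Point.map (W' := E) (σ : AlgebraicClosure F →ₐ[F] AlgebraicClosure F)

/-- `G` acts by automorphisms `ρ g` on the abelian group `V`.  The action looks CM modulo `m` if there is
an endomorphism `φ` of the group `V[m]` of the elements killed by `m` (the image of a homomorphism from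
`V[m]` to `V` is contained in `V[m]`) such that
* for every prime `ℓ ∣ m` there is a `P ∈ V[ℓ]` such that `φ P` is not a multiple of `P`;
* for every `g ∈ G` there are integers `a` and `b` such that `g φ = (a + b φ) g` on `V[m]`. -/
def ActionLooksCM {G V : Type} [AddCommGroup V] (ρ : G → V →+ V) (m : ℕ) : Prop :=
  ∃ φ : AddSubgroup.torsionBy V (m : ℤ) →+ V,
    (∀ l : ℕ, l.Prime → l ∣ m → ∃ P : AddSubgroup.torsionBy V (m : ℤ),
      l • P = 0 ∧ ∀ a : ℤ, φ P ≠ a • (P : V)) ∧
    ∀ g : G, ∃ a b : ℤ, ∀ P Q : AddSubgroup.torsionBy V (m : ℤ),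
      (Q : V) = ρ g P → ρ g (φ P) = a • (Q : V) + b • φ Q

/-- The elliptic curve `E` over `F` looks CM modulo `m`: there is an endomorphism `φ` of `E[m]`, which is
not a multiplication by an integer on `E[ℓ]` for any prime `ℓ ∣ m`, such that for every
`σ ∈ Gal(F̄/F)` there are integers `a` and `b` with `σ φ σ⁻¹ = a + b φ` on `E[m]`. -/
def LooksCM {F : Type} [Field F] (E : WeierstrassCurve F) (m : ℕ) : Prop :=
  ActionLooksCM (galoisAction E) m

/-- The rank of the elliptic curve `E` over `K` over the extension `F = Z.F` of `K` is at least `R`. -/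
def RankAtLeast {K : Type} [Field K] [NumberField K] (R : ℕ) (E : WeierstrassCurve K) (Z : Ext K) :
    Prop :=
  (R : Cardinal) ≤ Module.rank ℤ (E.map (algebraMap K Z.F)).toAffine.Point

/-- The `L`-series of an elliptic curve over `F`, the product of the Euler factors of the minimal models
`V`. -/
noncomputable def LFunction {F : Type} [Field F] [NumberField F]
    (V : HeightOneSpectrum (𝓞 F) → WeierstrassCurve (𝓞 F)) (s : ℂ) : ℂ := ∏' v, factor V s v

/-- The set `U` is connected and contains `1` and the half plane `Re s > 3/2`. -/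
def Region (U : Set ℂ) : Prop := IsPreconnected U ∧ 1 ∈ U ∧ ∀ s : ℂ, 3 / 2 < s.re → s ∈ U

/-- The properties of the extensions `F = Z.F` of `K`: for a prime number `p`
* `E` looks CM over `F` modulo all divisors `m` of `N` that are not divisible by `p ^ 2`;
* the Galois group of `L F / F` is `p`-hyperelementary, the divisors of `n` prime to `p` divide the local
  degrees of `F / K` above `S`, and `F` has at most two real places if `p ≠ 2`. -/
def Special {K : Type} [Field K] [NumberField K] (E : WeierstrassCurve K) (L : Type) [Field L]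
    [Algebra K L] (S : Set (HeightOneSpectrum (𝓞 K))) (n N : ℕ) (Z : Ext K) : Prop :=
  ∃ p : ℕ, p.Prime ∧
    (∀ m : ℕ, m ∣ N → ¬ p ^ 2 ∣ m → LooksCM (E.map (algebraMap K Z.F)) m) ∧
    HyperelementaryOver p L Z ∧
    (∀ k : ℕ, k ∣ n → k.Coprime p → LocalDegreesDivisible S k Z) ∧
    (p ≠ 2 → AtMostTwoRealPlaces Z)

/-- The first part of the theorem, for one curve. -/
def Reduction (K : Type) [Field K] [NumberField K] (E : WeierstrassCurve K) (L : Type) [Field L]
    [Algebra K L] (S : Set (HeightOneSpectrum (𝓞 K))) (n N R : ℕ) : Prop :=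
  ∃ (k : ℕ) (F : Fin k → Ext K) (e : Fin k → ℤ),
    (∀ i, RankAtLeast R E (F i) ∧ Special E L S n N (F i)) ∧
    (∀ r : Fin k → ℕ, (∀ i, Module.rank ℤ (E.map (algebraMap K (F i).F)).toAffine.Point = r i) →
      ∃ r₀ : ℕ, Module.rank ℤ E.toAffine.Point = r₀ ∧ (r₀ : ℤ) = ∑ i, e i * r i) ∧
    (∀ (V : HeightOneSpectrum (𝓞 K) → WeierstrassCurve (𝓞 K)) (_ : MinimalModels E V)
      (W : ∀ i, HeightOneSpectrum (𝓞 (F i).F) → WeierstrassCurve (𝓞 (F i).F))
      (_ : ∀ i, MinimalModels (E.map (algebraMap K (F i).F)) (W i)),
      ∃ ρ : ℂ → ℂ, MeromorphicOn ρ Set.univ ∧ meromorphicOrderAt ρ 1 = 0 ∧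
        ∀ s : ℂ, 3 / 2 < s.re → ρ s ≠ 0 ∧
          LFunction V s = ρ s * ∏ i, LFunction (W i) s ^ e i) ∧
    ∀ U : Set ℂ, Region U → (∀ i, RankFormula U 1 (E.map (algebraMap K (F i).F))) →
      RankFormula U 1 E

/-- The first part of the theorem. -/
def ReductionForAll : Prop :=
  ∀ (K : Type) [Field K] [NumberField K] (E : WeierstrassCurve K) [E.IsElliptic],
    E.j ≠ 0 → E.j ≠ 1728 → ∀ (L : Type) [Field L] [NumberField L] [Algebra K L] [IsGalois K L]
    (S : Set (HeightOneSpectrum (𝓞 K))), S.Finite → ∀ n : ℕ, n ≠ 0 → ∀ N : ℕ, N ≠ 0 →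
    ∀ R : ℕ, Reduction K E L S n N R

/-- The rank conjecture for all elliptic curves `E` over all number fields `K`: `L(E/K, s)` has a
meromorphic continuation to `U`, whose order at `s = 1` is the rank of `E(K)`. -/
def RankConjecture (U : Set ℂ) : Prop :=
  ∀ (K : Type) [Field K] [NumberField K] (E : WeierstrassCurve K) [E.IsElliptic], RankFormula U 1 E

/-- The rank conjecture for all elliptic curves `E` over all number fields `K` with `j(E) = 0` or
`j(E) = 1728`, and for all those which have rank at least `R` and look CM modulo `N`. -/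
def RankConjectureIfCM (U : Set ℂ) (R N : ℕ) : Prop :=
  ∀ (K : Type) [Field K] [NumberField K] (E : WeierstrassCurve K) [E.IsElliptic],
    ((R : Cardinal) ≤ Module.rank ℤ E.toAffine.Point ∧ LooksCM E N ∨ E.j = 0 ∨ E.j = 1728) →
    RankFormula U 1 E

/-- The rank conjecture for all elliptic curves `E` over all number fields `K` with `j(E) = 0` or
`j(E) = 1728`, and for all those which have rank at least `R` and look CM modulo all divisors of `N` that
are not divisible by `p ^ 2`, for some prime number `p`. -/
def RankConjectureIfCM' (U : Set ℂ) (R N : ℕ) : Prop :=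
  ∀ (K : Type) [Field K] [NumberField K] (E : WeierstrassCurve K) [E.IsElliptic],
    ((R : Cardinal) ≤ Module.rank ℤ E.toAffine.Point ∧
      (∃ p : ℕ, p.Prime ∧ ∀ m : ℕ, m ∣ N → ¬ p ^ 2 ∣ m → LooksCM E m) ∨
      E.j = 0 ∨ E.j = 1728) →
    RankFormula U 1 E

/-- **The rank conjecture and elliptic curves that look CM.**

(1) Let `E` be an elliptic curve over a number field `K` with `j(E) ≠ 0, 1728`, `L/K` a finite Galois
extension, `S` a finite set of primes of `K`, `n, N ≥ 1` and `R` natural numbers.  There are finitely many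
finite extensions `F_i` of `K` and integers `e_i` such that
* `E(F_i)` has rank at least `R`;
* for a prime number `p_i`, `E` looks CM over `F_i` modulo all divisors of `N` not divisible by `p_i ^ 2`,
  `Gal(L F_i / F_i)` is `p_i`-hyperelementary, the part of `n` prime to `p_i` divides the local degrees of
  `F_i / K` above `S`, and `F_i` has at most two real places if `p_i ≠ 2`;
* the rank of `E(K)` is the sum of the `e_i` times the ranks of `E(F_i)`;
* `L(E/K, s) = ρ(s) ∏ L(E/F_i, s) ^ e_i` for `Re s > 3/2`, where `ρ` is meromorphic on `ℂ`,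
  different from zero for `Re s > 3/2` and of order `0` at `s = 1`;
* for all connected `U` that contain `1` and the half plane `Re s > 3/2`, for example `U = ℂ`: if for all
  `i` the function `L(E/F_i, s)` has a meromorphic continuation to `U` with order at `1` equal to the rank
  of `E(F_i)`, then the same holds for `E` over `K`.

(2) Let `N ≥ 1` be squarefree, `R` a natural number and `U` connected with `1 ∈ U` and `Re s > 3/2`
contained in `U`, for example `U = ℂ`.  The rank conjecture (with the meromorphic continuation to `U`)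
holds for all elliptic curves over all number fields if and only if it holds for the elliptic curves with
rank at least `R` that look CM modulo `N`, and for the elliptic curves with `j = 0` or `j = 1728`.

(3) The same with any `N ≥ 1`, if one asks that for some prime number `p`, which depends on the curve, the
curve looks CM modulo all divisors of `N` not divisible by `p ^ 2`. -/
theorem result :
    ReductionForAll ∧
    (∀ N : ℕ, Squarefree N → ∀ (R : ℕ) (U : Set ℂ), Region U →
      (RankConjecture U ↔ RankConjectureIfCM U R N)) ∧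
    ∀ N : ℕ, N ≠ 0 → ∀ (R : ℕ) (U : Set ℂ), Region U →
      (RankConjecture U ↔ RankConjectureIfCM' U R N) := by
  have main : ReductionForAll := by
    intro K _ _ E hE h0 h1728 L _ _ _ _ S hS n hn N hN R
    obtain ⟨L', hfin, hgal, ⟨f⟩, hco⟩ := Pool.Agent.H453.CM.exists_fld K E L (N ^ 2)
      (pow_ne_zero 2 hN)
    have _ : NumberField L' := NumberField.of_module_finite K L'
    obtain ⟨k, F, e, hrel, hF⟩ := Pool.Agent.N683.H2.list_one K E hE h0 h1728 L' S hS n hn R
    refine ⟨k, F, e, fun i => ⟨(hF i).1, ?_⟩, fun r hr => ?_, fun V hV W hW =>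
      Pool.Agent.N683.H2.L_of_rel1 hrel hE V hV W hW,
      fun U hU h => (Pool.Agent.N19.BR.rank_of_rel one_ne_zero hrel hU.1 hU.2.2 hU.2.1 hE h).1⟩
    · obtain ⟨p, hp, hyp, hloc, hreal⟩ := (hF i).2
      refine ⟨p, hp, fun m hm hpm => ?_, ?_, hloc, hreal⟩
      · exact Pool.Agent.H453.CM.lc_of_hyper K E L'.val hco (F i) hp hyp m
          (fun h => hN (Nat.eq_zero_of_zero_dvd (h ▸ hm))) hm hpm
      · obtain ⟨M, hM, hM2, ⟨g⟩⟩ := hyp
        exact ⟨M, hM, hM2, ⟨g.comp f⟩⟩
    · obtain ⟨r0, h1, h2⟩ := Pool.Agent.N19.BR.rank_of_rel' one_ne_zero hrel E hr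
      exact ⟨r0, h1, by rw [h2]; push_cast; ring⟩
  have three : ∀ N : ℕ, N ≠ 0 → ∀ (R : ℕ) (U : Set ℂ), Region U →
      (RankConjecture U ↔ RankConjectureIfCM' U R N) := by
    intro N hN R U hU
    refine ⟨fun h K _ _ E _ _ => h K E, fun h K _ _ E _ => ?_⟩
    by_cases h0 : E.j = 0
    · exact h K E (Or.inr (Or.inl h0))
    by_cases h1 : E.j = 1728
    · exact h K E (Or.inr (Or.inr h1))
    obtain ⟨k, F, e, hF, -, -, h2⟩ := main K E h0 h1 K ∅ Set.finite_empty 1 one_ne_zero N hN R
    refine h2 U hU fun i => h (F i).F _ (Or.inl ⟨(hF i).1, ?_⟩)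
    obtain ⟨p, hp, hcm, -⟩ := (hF i).2
    exact ⟨p, hp, hcm⟩
  refine ⟨main, ?_, three⟩
  intro N hN R U hU
  refine ⟨fun h K _ _ E _ _ => h K E, fun h => ?_⟩
  refine (three N hN.ne_zero R U hU).2 fun K _ _ E _ hE => h K E ?_
  rcases hE with ⟨hr, p, hp, hcm⟩ | hE
  · refine Or.inl ⟨hr, hcm N dvd_rfl fun hd => ?_⟩
    exact hp.one_lt.ne' (Nat.isUnit_iff.1 (hN p (by rwa [← sq])))
  · exact Or.inr hE

end Pool.Agent.H453.Old.RankLooksCM
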