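import Pool.Agent.H453.BS.Shape

/-!
# The rank conjecture of Birch and Swinnerton-Dyer: the structure of a minimal counterexample

Let `K/k` be a finite extension of number fields and `E` an elliptic curve over `k`.  Suppose that the
conjecture (meromorphic continuation of the `L`-series to a set `U` that contains `1`, for example to `ℂ`,
and order of vanishing at `s = 1` equal to the rank) holds for all quadratic twists of `E` over all
extensions `Z/k` of degree less than `[K : k]`.  Then it holds for `E` over `K`, or `K/k` has a very special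
structure: for every field `F` with `k ⊆ F ⊊ K`, with the normal closure `M` of `K/F`, `G = Gal(M/F)` and
`H = Gal(M/K)`:

* `G` has no nontrivial normal 2-subgroup; for example `[K : F] ≠ 2`, and `[K : F] ≠ 4`;
* if `A` is a nontrivial elementary abelian normal `p`-subgroup of `G`, and `[A : A ∩ H] = p ^ d`, then some
  subgroup of index `p` of `A` that contains `A ∩ H` has at least `p ^ (d - 1)` conjugates under `H`;
* if there is no field between `F` and `K` and `G` is solvable, then `[K : F]` is a power of an odd prime;

and `Aut(K/k)` has odd order and all its subgroups of order `p q`, `p` and `q` primes, are cyclic.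

The same is true for the congruence of the order and the rank modulo any integer `d`, for example for the
parities, `d = 2`; the conjecture itself is the case `d = 0`.

More precisely, if one of these conditions does not hold, then there are finitely many extensions `Z_i/k` of
degree less than `[K : k]`, `D_i ∈ Z_i` and integers `e_i` such that for all elliptic curves `E` over `k`, with
the quadratic twists `E_D` of `E`, `L(E/K, s)` is the product of the functions `L(E_{D_i}/Z_i, s) ^ e_i` up to
a factor which is meromorphic on `ℂ` and has neither zeros nor poles for `Re s > 1` and at `s = 1`, and the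
rank of `E(K)` is the sum of the `e_i` times the ranks of the `E_{D_i}(Z_i)`.

The proof.  (1) `L(E/Z(√D), s) = L(E/Z, s) L(E_D/Z, s)` up to finitely many Euler factors, and
`E(Z(√D)) ⊗ ℚ` is the sum of `E(Z) ⊗ ℚ` and `E_D(Z) ⊗ ℚ`.  The finitely many Euler factors have no zeros at
`s = 1`, as a singular cubic over a finite field has a non-singular point besides the one at infinity or an
affine singular one.  (2) Relations between permutation characters give relations between `L`-series, and
between the dimensions of the spaces of invariants of `E(M) ⊗ ℚ`; no finiteness is assumed (the theorem of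
Mordell and Weil is not used).  (3) The relations come from affine spaces over finite fields on which `G`
acts, from Frobenius groups, and from groups of order `p q`.
-/

set_option autoImplicit false

namespace Pool.Agent.H453.Old.RankMinimalCounterexample

open NumberField IsDedekindDomain
open Pool.Agent.R433.MD (Ext LL)
open Pool.Agent.N19.BR.Def
open scoped Classical

/-- The quadratic twist `y² = x³ - 27 d² c₄ x - 54 d³ c₆` of `E` by `d`, where `c₄`, `c₆` are the
invariants of `E`. -/
def QuadraticTwist {F : Type} [Field F] (E : WeierstrassCurve F) (d : F) : WeierstrassCurve F where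
  a₁ := 0
  a₂ := 0
  a₃ := 0
  a₄ := -27 * d ^ 2 * E.c₄
  a₆ := -54 * d ^ 3 * E.c₆

/-- The `L`-series of an elliptic curve over `F`, the product of the Euler factors of the minimal models
`V`. -/
noncomputable def LFunction {F : Type} [Field F] [NumberField F]
    (V : HeightOneSpectrum (𝓞 F) → WeierstrassCurve (𝓞 F)) (s : ℂ) : ℂ := ∏' v, factor V s v

/-- The function `ρ` is meromorphic on `ℂ`, and it has neither zeros nor poles for `Re s > 1` and at
`s = 1`. -/
def Harmless (ρ : ℂ → ℂ) : Prop :=
  MeromorphicOn ρ Set.univ ∧ ∀ s : ℂ, (1 < s.re ∨ s = 1) → AnalyticAt ℂ ρ s ∧ ρ s ≠ 0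

/-- There are finitely many extensions `Z i` of `k` of degree less than `[K : k]`, nonzero integers `D i`
of `Z i` and integers `e i` such that for all elliptic curves `E` over `k`
`L(E/K, s) = ρ(s) ∏ L(E_{D i}/Z i, s) ^ (e i)` for `Re s > 3/2`, where `E_D` is the quadratic twist and `ρ`
is meromorphic on `ℂ` without zeros and poles for `Re s > 1` and at `s = 1`, and such that the rank of `E(K)`
is the sum of the `e i` times the ranks of the groups `E_{D i}(Z i)`, if these ranks are finite. -/
def Reducible (k : Type) [Field k] [NumberField k] (K : Type) [Field K] [NumberField K]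
    [Algebra k K] : Prop :=
  ∃ (ι : Type) (_ : Fintype ι) (Z : ι → Ext k) (D : ∀ i, 𝓞 (Z i).F) (e : ι → ℤ),
    (∀ i, D i ≠ 0 ∧ Module.finrank k (Z i).F < Module.finrank k K) ∧
    ∀ (E : WeierstrassCurve k) [E.IsElliptic],
      (∀ (V : HeightOneSpectrum (𝓞 K) → WeierstrassCurve (𝓞 K))
        (_ : MinimalModels (E.map (algebraMap k K)) V)
        (W : ∀ i, HeightOneSpectrum (𝓞 (Z i).F) → WeierstrassCurve (𝓞 (Z i).F))
        (_ : ∀ i, MinimalModels (QuadraticTwist (E.map (algebraMap k (Z i).F)) (D i : (Z i).F)) (W i)),
        ∃ ρ : ℂ → ℂ, Harmless ρ ∧ ∀ s : ℂ, 3 / 2 < s.re →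
          LFunction V s = ρ s * ∏ i, LFunction (W i) s ^ e i) ∧
      ∀ r : ι → ℕ, (∀ i, Module.rank ℤ
          (QuadraticTwist (E.map (algebraMap k (Z i).F)) (D i : (Z i).F)).toAffine.Point = r i) →
        ∃ r₀ : ℕ, Module.rank ℤ (E.map (algebraMap k K)).toAffine.Point = r₀ ∧
          (r₀ : ℤ) = ∑ i, e i * (r i : ℤ)

/-- `L(E/K, s)` has a meromorphic continuation to `U`, the rank of `E(K)` is finite, and the order of the
continuation at `s = 1` is congruent to the rank modulo `d`.  For `d = 0` it is equal to the rank. -/
def RankCongruence (d : ℤ) (U : Set ℂ) (K : Type) [Field K] [NumberField K]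
    (E : WeierstrassCurve K) : Prop :=
  ∃ (Λ : ℂ → ℂ) (r : ℕ) (m : ℤ), Continues U 1 E Λ ∧ Module.rank ℤ E.toAffine.Point = r ∧
    meromorphicOrderAt Λ 1 = m ∧ d ∣ m - r

section groups
variable {G : Type} [Group G]

/-- The number of the cosets of `H` fixed by `g`: the permutation character of `G` on `G / H`. -/
noncomputable def fixedCosets (H : Subgroup G) (g : G) : ℤ :=
  (Nat.card {c : G ⧸ H // g • c = c} : ℤ)

/-- `S` has index less than `n`, or it has index two in a subgroup of index less than `n`. -/
def SmallIndex (n : ℕ) (S : Subgroup G) : Prop :=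
  S.index < n ∨ ∃ S₀ : Subgroup G, S ≤ S₀ ∧ S.relIndex S₀ = 2 ∧ S₀.index < n

/-- The permutation character on `G / H` is not an integral combination of the permutation characters on
the sets `G / S i` with subgroups `S i` of index less than `[G : H]`, or of index two in a subgroup of index
less than `[G : H]`. -/
def NoRelation (H : Subgroup G) : Prop :=
  ∀ (m : ℕ) (S : Fin m → Subgroup G) (c : Fin m → ℤ), (∀ i, SmallIndex H.index (S i)) →
    ∃ g : G, fixedCosets H g ≠ ∑ i, c i * fixedCosets (S i) g

/-- If `A` is a normal subgroup, elementary abelian of exponent `p`, and not contained in `H`, then `p ≠ 2`,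
and there is a subgroup `B` of index `p` in `A` that contains `A ∩ H` such that
`[A : A ∩ H] ≤ p [A H : N(B)]`, where `N(B)` is the normalizer of `B` in `A H` (the index of `N(B)` is the
number of the conjugates of `B` under `A H`, or under `H`, since `A` is abelian). -/
def LargeOrbits (H : Subgroup G) : Prop :=
  ∀ (p : ℕ) (A : Subgroup G), p.Prime → A.Normal → (∀ a ∈ A, ∀ b ∈ A, a * b = b * a) →
    (∀ a ∈ A, a ^ p = 1) → ¬ A ≤ H →
    p ≠ 2 ∧ ∃ B ≤ A, A ⊓ H ≤ B ∧ B.relIndex A = p ∧
      H.relIndex A ≤ p * (Subgroup.normalizer (B : Set G)).relIndex (A ⊔ H)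

end groups

section fields
variable {k : Type} [Field k] {K : Type} [Field K] [Algebra k K]

/-- The automorphisms of `M/F` that fix `K`. -/
def FixK (F : IntermediateField k K) (M : Type) [Field M] [Algebra K M] : Subgroup Gal(M/F) :=
  (IsScalarTower.toAlgHom F K M).fieldRange.fixingSubgroup

end fields

/-- The structure of a minimal counterexample `K/k`.

(1) For every field `F` between `k` and `K` and every Galois extension `M/F` that contains `K`, the
permutation character of `Gal(M/F)` on the cosets of `Gal(M/K)` is no combination of permutation characters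
of smaller degree (`NoRelation`), and `LargeOrbits` holds.

(2) For every field `F` between `k` and `K`, and the normal closure `M` of `K/F`, the group `Gal(M/F)` has
no nontrivial normal 2-subgroup.  If it is solvable, `F ≠ K`, and there is no field strictly between `F` and
`K`, then `[K : F]` is a power of an odd prime.

(3) The group `Aut(K/k)` has odd order, and all its subgroups whose order is the product of two (equal or
different) primes are cyclic. -/
def Shape (k : Type) [Field k] (K : Type) [Field K] [Algebra k K] : Prop :=
  (∀ (F : IntermediateField k K) (M : Type) [Field M] [NumberField M] [Algebra K M] [IsGalois F M],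
    NoRelation (FixK F M) ∧ LargeOrbits (FixK F M)) ∧
  (∀ (F : IntermediateField k K) (M : Type) [Field M] [NumberField M] [Algebra K M]
    [IsNormalClosure F K M],
    (∀ T : Subgroup Gal(M/F), T.Normal → IsPGroup 2 T → T = ⊥) ∧
    (Group.IsSolvable Gal(M/F) → Module.finrank F K ≠ 1 →
      (∀ L : IntermediateField F K, L = ⊥ ∨ L = ⊤) →
      ∃ p d : ℕ, p.Prime ∧ p ≠ 2 ∧ d ≠ 0 ∧ Module.finrank F K = p ^ d)) ∧
  Odd (Nat.card Gal(K/k)) ∧
  ∀ (B : Subgroup Gal(K/k)) (p q : ℕ), p.Prime → q.Prime → Nat.card B = p * q → IsCyclic B

/-- **The structure of a minimal counterexample to the rank conjecture of Birch and Swinnerton-Dyer.**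

Let `K/k` be an extension of number fields.

(1) `K/k` is reducible or has the structure `Shape`: if one of the conditions of `Shape` is not satisfied,
then for all elliptic curves `E` over `k` the `L`-series and the rank of `E` over `K` are combinations, the
same for all `E`, of those of quadratic twists of `E` over extensions of `k` of degree less than `[K : k]`.

(2) Let `1 ∈ U`, for example `U = ℂ`, let `d` be an integer and `E` an elliptic curve over `k`.  Suppose
that for all quadratic twists of `E` over all extensions of `k` of degree less than `[K : k]` the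
`L`-series has a meromorphic continuation to `U` and its order at `s = 1` is congruent to the rank modulo
`d` (`d = 0`: equal to the rank).  Then this is true for `E` over `K`, or `K/k` has the structure `Shape`. -/
theorem result (k : Type) [Field k] [NumberField k] (K : Type) [Field K] [NumberField K]
    [Algebra k K] :
    (Reducible k K ∨ Shape k K) ∧
    ∀ (U : Set ℂ) (_ : (1 : ℂ) ∈ U) (d : ℤ) (E : WeierstrassCurve k) [E.IsElliptic],
      (∀ Z : Ext k, Module.finrank k Z.F < Module.finrank k K → ∀ D : 𝓞 Z.F, D ≠ 0 →
        RankCongruence d U Z.F (QuadraticTwist (E.map (algebraMap k Z.F)) (D : Z.F))) →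
      RankCongruence d U K (E.map (algebraMap k K)) ∨ Shape k K := by
  have hshape : ¬ Pool.Agent.H453.BS.FacR (Module.finrank k K) (⟨K⟩ : Ext k) → Shape k K := by
    intro hK0
    have hK := Pool.Agent.H453.BS.no_relR hK0
    refine ⟨fun F M _ _ _ _ => ⟨fun m S c hS => ?_, fun p A hp hA hcomm hexp hAH =>
      Pool.Agent.H453.BS.large_orbit hK F M hp hA hcomm hexp hAH⟩, fun F M _ _ _ _ => ?_,
      Pool.Agent.H453.BS.aut_case hK⟩
    · by_contra hcon
      push Not at hcon
      have hidx : (FixK F M).index = Module.finrank F K := Pool.Agent.H453.MC.index_fix F M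
      refine hK F M ?_
      have e : Pool.Agent.R433.MD.fx (IsScalarTower.toAlgHom F K M).fieldRange.fixingSubgroup =
          ∑ i, c i • Pool.Agent.R433.MD.fx (S i) := by
        funext g
        rw [Finset.sum_apply]
        exact hcon g
      rw [e, ← hidx]
      exact Submodule.sum_mem _ fun i _ => Submodule.smul_mem _ _
        (Submodule.subset_span ⟨_, hS i, rfl⟩)
    · have hn : Normal F M := IsNormalClosure.normal (F := F) (K := K) (L := M)
      have hg : IsGalois F M := ⟨⟩
      exact ⟨fun T hT h2 => Pool.Agent.H453.BS.two_radical hK F M hT h2,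
        fun hs hF hmax => Pool.Agent.H453.BS.solvable_case hK F M hmax hF⟩
  constructor
  · by_cases hK : Pool.Agent.H453.BS.FacR (Module.finrank k K) (⟨K⟩ : Ext k)
    · left
      obtain ⟨ι, hι, Z, D, e, hZ, hL⟩ := hK
      refine ⟨ι, hι, Z, D, e, hZ, fun E hE => ⟨fun V hV W hW => ?_, (hL E hE).2⟩⟩
      obtain ⟨R, hR, hRL⟩ := (hL E hE).1 V ((Pool.Agent.N19.BR.minimalModels_iff _ _).1 hV) W
        (fun i => (Pool.Agent.N19.BR.minimalModels_iff _ _).1 (hW i))
      refine ⟨R, hR, fun s hs => ?_⟩
      have h1 : LFunction V s = LL V s := Pool.Agent.N19.BR.prod_eq V s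
      have h2 : ∀ i, LFunction (W i) s = LL (W i) s := fun i =>
        Pool.Agent.N19.BR.prod_eq (W i) s
      rw [h1, Finset.prod_congr rfl fun i _ => by rw [h2 i]]
      exact hRL s hs
    · exact Or.inr (hshape hK)
  · intro U hU d E hE hcont
    by_cases hK : Pool.Agent.H453.BS.FacR (Module.finrank k K) (⟨K⟩ : Ext k)
    · left
      obtain ⟨ι, hι, Z, D, e, hZ, hL⟩ := hK
      have hEK : (E.map (algebraMap k K)).IsElliptic := inferInstance
      have hT : ∀ i, (Pool.Agent.H341R2.EC.twist (E.map (algebraMap k (Z i).F))
          (D i : (Z i).F)).IsElliptic := fun i =>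
        Pool.Agent.H453.MC.twist_elliptic inferInstance (by
          rw [Ne, FaithfulSMul.algebraMap_eq_zero_iff]
          exact (hZ i).1)
      obtain ⟨V, hV⟩ := Pool.Agent.R433.MD.exists_minimal (E.map (algebraMap k K)) hEK
      choose W hW using fun i => Pool.Agent.R433.MD.exists_minimal _ (hT i)
      choose Λ r m hΛ hr hm hd using fun i => hcont (Z i) (hZ i).2 (D i) (hZ i).1
      have hΛ' := fun i => (Pool.Agent.N19.BR.continues_iff (hT i) (hW i)).1 (hΛ i)
      obtain ⟨R, hR, hRL⟩ := (hL E hE).1 V hV W hW
      obtain ⟨r₀, hr₀, hsum⟩ := (hL E hE).2 r hr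
      have hmer : ∀ i, MeromorphicAt (Λ i) 1 := fun i => (hΛ' i).1 1 hU
      have hR1 : MeromorphicAt R 1 := hR.1 1 trivial
      refine ⟨R * ∏ i, Λ i ^ e i, r₀, ∑ i, e i * m i,
        (Pool.Agent.N19.BR.continues_iff hEK hV).2 ⟨?_, fun s hs => ?_⟩, hr₀, ?_, ?_⟩
      · have h1 : MeromorphicOn R U := fun x _ => hR.1 x trivial
        exact h1.mul (MeromorphicOn.prod fun i _ => (hΛ' i).1.zpow _)
      · have h2 : LL V s = R s * ∏ i, LL (W i) s ^ e i := hRL s hs
        rw [pow_one, h2, Pi.mul_apply, Finset.prod_apply]
        congr 1
        refine Finset.prod_congr rfl fun i _ => ?_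
        rw [Pi.pow_apply, (hΛ' i).2 s hs, pow_one]
      · rw [meromorphicOrderAt_mul hR1 (MeromorphicAt.prod fun i _ => (hmer i).zpow _),
          Pool.Agent.H453.BS.Nice.order hR, zero_add,
          meromorphicOrderAt_prod fun i _ => (hmer i).zpow _]
        have h4 : ∀ i, meromorphicOrderAt (Λ i ^ e i) 1 = ((e i * m i : ℤ) : WithTop ℤ) := fun i => by
          rw [meromorphicOrderAt_zpow (hmer i), hm i]
          rfl
        rw [Finset.sum_congr rfl fun i _ => h4 i, ← WithTop.coe_sum]
      · rw [hsum, ← Finset.sum_sub_distrib]
        refine Finset.dvd_sum fun i _ => ?_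
        rw [← mul_sub]
        exact Dvd.dvd.mul_left (hd i) _
    · exact Or.inr (hshape hK)

end Pool.Agent.H453.Old.RankMinimalCounterexample
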